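import Pool.Agent.K4H1.PAC.Chain

/-!
# Points of algebras of finite type
-/

set_option autoImplicit false

namespace Pool.Agent.K4H1.PAC

open MvPolynomial TensorProduct

variable {Ω : Type} [Field Ω]

theorem ext_isPrime (K : Subfield Ω) (A : Type) [CommRing A] [Algebra K A]
    (hdom : IsDomain (Ω ⊗[K] A)) (n : ℕ) (f : MvPolynomial (Fin n) K →ₐ[K] A)
    (hf : Function.Surjective f) : (ext Ω (RingHom.ker f)).IsPrime := by
  let e : Ω ⊗[K] MvPolynomial (Fin n) K ≃ₐ[Ω] MvPolynomial (Fin n) Ω :=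
    MvPolynomial.algebraTensorAlgEquiv K Ω
  let g : Ω ⊗[K] MvPolynomial (Fin n) K →ₐ[K] Ω ⊗[K] A :=
    Algebra.TensorProduct.map (AlgHom.id K Ω) f
  have h1 : RingHom.ker g = (RingHom.ker f).map
      (Algebra.TensorProduct.includeRight : MvPolynomial (Fin n) K →ₐ[K] Ω ⊗[K] _) :=
    Algebra.TensorProduct.lTensor_ker f hf
  have h2 : ext Ω (RingHom.ker f) = (RingHom.ker g).map (e : _ →+* MvPolynomial (Fin n) Ω) := by
    unfold ext
    rw [h1]
    change _ = Ideal.map _ (Ideal.map
      (Algebra.TensorProduct.includeRight : MvPolynomial (Fin n) K →ₐ[K] Ω ⊗[K] _).toRingHom _)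
    rw [Ideal.map_map]
    congr 1
    ext x
    · simp [e, Algebra.TensorProduct.includeRight]
    · simp [e]
  rw [h2]
  have h3 : (RingHom.ker g).IsPrime := RingHom.ker_isPrime g
  exact Ideal.map_isPrime_of_equiv e.toRingEquiv
  
theorem exists_algHom (K : Subfield Ω) (hK : ∀ t, Good t → Over K t → Pt K t)
    (A : Type) [CommRing A] [Algebra K A] (hft : Algebra.FiniteType K A)
    (hdom : IsDomain (Ω ⊗[K] A)) : Nonempty (A →ₐ[K] K) := by
  classical
  obtain ⟨n, f, hf⟩ := Algebra.FiniteType.iff_quotient_mvPolynomial''.1 hft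
  have hp := ext_isPrime K A hdom n f hf
  obtain ⟨s, hs⟩ : (RingHom.ker f).FG := IsNoetherian.noetherian _
  let t : Task Ω := ⟨n, s.image (map (algebraMap K Ω))⟩
  have ho : Over K t := by
    intro g hg m
    obtain ⟨g', -, rfl⟩ := Finset.mem_image.1 hg
    rw [coeff_map]
    exact (coeff m g').2
  have hg : Good t := by
    unfold Good
    have : Ideal.span (t.2 : Set (MvPolynomial (Fin t.1) Ω)) = ext Ω (RingHom.ker f) := by
      unfold ext
      rw [← hs]
      change _ = Ideal.map _ (Ideal.span _)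
      rw [Ideal.map_span, Finset.coe_image]
    rw [this]
    exact hp
  obtain ⟨a, ha, h0⟩ := hK t hg ho
  let b : Fin n → K := fun i => ⟨a i, ha i⟩
  have hb : ∀ g ∈ RingHom.ker f, aeval b g = 0 := by
    have : RingHom.ker f ≤ RingHom.ker (aeval b : MvPolynomial (Fin n) K →ₐ[K] K) := by
      rw [← hs]
      refine Submodule.span_le.2 fun g hg => ?_
      have h1 := h0 (map (algebraMap K Ω) g) (Finset.mem_image_of_mem _ hg)
      rw [eval_map] at h1
      have h2 : algebraMap K Ω (aeval b g) = 0 := by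
        rw [← h1, aeval_def, hom_eval₂]
        rfl
      exact (map_eq_zero _).1 h2
    exact fun g hg => this hg
  let q : (MvPolynomial (Fin n) K ⧸ RingHom.ker f) →ₐ[K] K :=
    Ideal.Quotient.liftₐ (RingHom.ker f) (aeval b) hb
  exact ⟨q.comp (Ideal.quotientKerAlgEquivOfSurjective hf).symm.toAlgHom⟩

end Pool.Agent.K4H1.PAC
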