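import Pool.Agent.K4H1.PAC.Generic

/-!
# Every countable subfield of `Ω` has a countable extension field in `Ω`, in which it is relatively
algebraically closed, and over which all the geometrically integral affine varieties have points
-/

set_option autoImplicit false

namespace Pool.Agent.K4H1.PAC

open MvPolynomial

variable {Ω : Type} [Field Ω]

/-- a finite set of polynomials with coefficients in `Ω` -/
abbrev Task (Ω : Type) [Field Ω] : Type := Σ n : ℕ, Finset (MvPolynomial (Fin n) Ω)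

/-- the coefficients are in `K` -/
def Over (K : Subfield Ω) (t : Task Ω) : Prop := ∀ f ∈ t.2, ∀ m, coeff m f ∈ K

/-- the ideal generated over `Ω` is prime -/
def Good (t : Task Ω) : Prop := (Ideal.span (t.2 : Set (MvPolynomial (Fin t.1) Ω))).IsPrime

/-- there is a common zero with coordinates in `L` -/
def Pt (L : Subfield Ω) (t : Task Ω) : Prop :=
  ∃ a : Fin t.1 → Ω, (∀ i, a i ∈ L) ∧ ∀ f ∈ t.2, eval a f = 0

theorem Over.mono {K L : Subfield Ω} (h : K ≤ L) {t : Task Ω} (ht : Over K t) : Over L t :=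
  fun f hf m => h (ht f hf m)

theorem Pt.mono {K L : Subfield Ω} (h : K ≤ L) {t : Task Ω} (ht : Pt K t) : Pt L t := by
  obtain ⟨a, ha, h'⟩ := ht
  exact ⟨a, fun i => h (ha i), h'⟩

theorem mem_range_of_coeff {K : Subfield Ω} {n : ℕ} {f : MvPolynomial (Fin n) Ω}
    (h : ∀ m, coeff m f ∈ K) : ∃ g : MvPolynomial (Fin n) K, map (algebraMap K Ω) g = f := by
  refine ⟨∑ m ∈ f.support, monomial m (⟨coeff m f, h m⟩ : K), ?_⟩
  rw [map_sum]
  conv_rhs => rw [f.as_sum]
  refine Finset.sum_congr rfl fun m _ => ?_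
  rw [map_monomial]
  rfl

theorem step [IsAlgClosed Ω] [Uncountable Ω] (K : Subfield Ω) (hK : Countable K) (t : Task Ω) :
    ∃ L : Subfield Ω, Countable L ∧ Rac K L ∧ (Good t → Over K t → Pt L t) := by
  by_cases h : Good t ∧ Over K t
  swap
  · exact ⟨K, hK, Rac.refl K, fun h1 h2 => absurd ⟨h1, h2⟩ h⟩
  obtain ⟨hg, ho⟩ := h
  obtain ⟨n, s⟩ := t
  let I : Ideal (MvPolynomial (Fin n) K) :=
    Ideal.span {g | map (algebraMap K Ω) g ∈ (s : Set (MvPolynomial (Fin n) Ω))}
  have hI : ext Ω I = Ideal.span (s : Set (MvPolynomial (Fin n) Ω)) := by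
    unfold ext
    rw [Ideal.map_span]
    congr 1
    ext f
    constructor
    · rintro ⟨g, hg, rfl⟩
      exact hg
    · intro hf
      obtain ⟨g, rfl⟩ := mem_range_of_coeff (ho f hf)
      exact ⟨g, hf, rfl⟩
  obtain ⟨L, hL, hR, a, ha, h0⟩ := generic K n I (by rw [hI]; exact hg)
  refine ⟨L, hL, hR, fun _ _ => ⟨a, ha, fun f hf => ?_⟩⟩
  obtain ⟨g, rfl⟩ := mem_range_of_coeff (ho f hf)
  have := h0 g (Ideal.subset_span hf)
  rwa [aeval_def, ← eval_map] at this

theorem chain (s : ℕ → Subfield Ω) (hc : ∀ m, Countable (s m)) (hs : ∀ m, Rac (s m) (s (m + 1))) :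
    ∃ L : Subfield Ω, Countable L ∧ (∀ m, Rac (s m) L) ∧ ∀ x ∈ L, ∃ m, x ∈ s m := by
  have hmono : Monotone s := monotone_nat_of_le_succ fun m => (hs m).1
  have hdir : Directed (· ≤ ·) s := hmono.directed_le
  have hR : ∀ m k, Rac (s m) (s (m + k)) := by
    intro m k
    induction k with
    | zero => exact Rac.refl _
    | succ k ih => exact ih.trans (hs (m + k))
  refine ⟨⨆ m, s m, ?_, ?_, ?_⟩
  · have h1 : ((⨆ m, s m : Subfield Ω) : Set Ω) = ⋃ m, (s m : Set Ω) :=
      Subfield.coe_iSup_of_directed hdir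
    have h2 : ((⨆ m, s m : Subfield Ω) : Set Ω).Countable := by
      rw [h1]
      exact Set.countable_iUnion fun m => (hc m)
    exact h2
  · intro m
    refine ⟨le_iSup s m, fun x hx ha => ?_⟩
    rw [Subfield.mem_iSup_of_directed hdir] at hx
    obtain ⟨k, hk⟩ := hx
    exact (hR m k).2 x (hmono (Nat.le_add_left k m) hk) ha
  · intro x hx
    rwa [Subfield.mem_iSup_of_directed hdir] at hx

theorem countable_task (K : Subfield Ω) [Countable K] : {t : Task Ω | Over K t}.Countable := by
  classical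
  have : ∀ n, Countable (MvPolynomial (Fin n) K) := fun n => countable_mvPolynomial K n
  have h1 : Countable (Σ n : ℕ, Finset (MvPolynomial (Fin n) K)) := inferInstance
  refine (Set.countable_range (fun t : Σ n : ℕ, Finset (MvPolynomial (Fin n) K) =>
    (⟨t.1, t.2.image (map (algebraMap K Ω))⟩ : Task Ω))).mono ?_
  rintro ⟨n, s⟩ ht
  have h2 : ∀ f : s, ∃ g : MvPolynomial (Fin n) K, map (algebraMap K Ω) g = f.1 :=
    fun f => mem_range_of_coeff (ht f.1 f.2)
  choose g hg using h2
  refine ⟨⟨n, Finset.univ.image g⟩, ?_⟩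
  simp only [Sigma.mk.injEq, heq_eq_eq, true_and]
  ext f
  simp only [Finset.mem_image, Finset.mem_univ, true_and]
  constructor
  · rintro ⟨_, ⟨f', rfl⟩, rfl⟩
    rw [hg]
    exact f'.2
  · intro hf
    exact ⟨g ⟨f, hf⟩, ⟨⟨f, hf⟩, rfl⟩, hg _⟩

theorem stepB [IsAlgClosed Ω] [Uncountable Ω] (K : Subfield Ω) (hK : Countable K) :
    ∃ L : Subfield Ω, Countable L ∧ Rac K L ∧ ∀ t, Good t → Over K t → Pt L t := by
  obtain ⟨e, he⟩ := (countable_task K).exists_eq_range ⟨⟨0, ∅⟩, fun f hf => by simp at hf⟩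
  choose nx hnx using fun (L : {L : Subfield Ω // Countable L}) (t : Task Ω) => step L.1 L.2 t
  let s : ℕ → {L : Subfield Ω // Countable L} := fun m =>
    Nat.rec ⟨K, hK⟩ (fun m L => ⟨nx L (e m), (hnx L (e m)).1⟩) m
  have hs : ∀ m, Rac (s m).1 (s (m + 1)).1 := fun m => (hnx (s m) (e m)).2.1
  obtain ⟨L, hL, hR, -⟩ := chain (fun m => (s m).1) (fun m => (s m).2) hs
  refine ⟨L, hL, hR 0, fun t hg ho => ?_⟩
  have ht : t ∈ Set.range e := by rw [← he]; exact ho
  obtain ⟨m, rfl⟩ := ht
  have hKm : ∀ m, K ≤ (s m).1 := by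
    intro m
    induction m with
    | zero => exact le_rfl
    | succ m ih => exact ih.trans (hs m).1
  exact ((hnx (s m) (e m)).2.2 hg (ho.mono (hKm m))).mono (hR (m + 1)).1

theorem over_of_forall {s : ℕ → Subfield Ω} (hmono : Monotone s) {L : Subfield Ω}
    (hL : ∀ x ∈ L, ∃ m, x ∈ s m) (t : Task Ω) (ht : Over L t) : ∃ m, Over (s m) t := by
  classical
  have h1 : ∀ S : Finset Ω, (∀ x ∈ S, x ∈ L) → ∃ m, ∀ x ∈ S, x ∈ s m := by
    intro S
    induction S using Finset.induction_on with
    | empty => exact fun _ => ⟨0, fun x hx => by simp at hx⟩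
    | insert a S _ ih =>
      intro h
      obtain ⟨m, hm⟩ := ih fun x hx => h x (Finset.mem_insert_of_mem hx)
      obtain ⟨k, hk⟩ := hL a (h a (Finset.mem_insert_self a S))
      refine ⟨max m k, fun x hx => ?_⟩
      rcases Finset.mem_insert.1 hx with rfl | hx
      · exact hmono (le_max_right m k) hk
      · exact hmono (le_max_left m k) (hm x hx)
  obtain ⟨m, hm⟩ := h1 (t.2.biUnion fun f => f.support.image fun d => coeff d f) (by
    intro x hx
    simp only [Finset.mem_biUnion, Finset.mem_image] at hx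
    obtain ⟨f, hf, d, -, rfl⟩ := hx
    exact ht f hf d)
  refine ⟨m, fun f hf d => ?_⟩
  by_cases hd : d ∈ f.support
  · apply hm
    simp only [Finset.mem_biUnion, Finset.mem_image]
    exact ⟨f, hf, d, hd, rfl⟩
  · rw [notMem_support_iff.1 hd]
    exact (s m).zero_mem

/-- Every countable subfield `k` of an uncountable algebraically closed field `Ω` is relatively
algebraically closed in a countable subfield `K` such that every finite set of polynomials over `K`
which generates a prime ideal over `Ω` has a common zero with coordinates in `K`. -/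
theorem exists_pac [IsAlgClosed Ω] [Uncountable Ω] (k : Subfield Ω) (hk : Countable k) :
    ∃ K : Subfield Ω, Countable K ∧ Rac k K ∧ ∀ t, Good t → Over K t → Pt K t := by
  choose nx hnx using fun L : {L : Subfield Ω // Countable L} => stepB L.1 L.2
  let s : ℕ → {L : Subfield Ω // Countable L} := fun m =>
    Nat.rec ⟨k, hk⟩ (fun _ L => ⟨nx L, (hnx L).1⟩) m
  have hs : ∀ m, Rac (s m).1 (s (m + 1)).1 := fun m => (hnx (s m)).2.1
  have hmono : Monotone fun m => (s m).1 := monotone_nat_of_le_succ fun m => (hs m).1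
  obtain ⟨K, hK, hR, hm⟩ := chain (fun m => (s m).1) (fun m => (s m).2) hs
  refine ⟨K, hK, hR 0, fun t hg ho => ?_⟩
  obtain ⟨m, hmt⟩ := over_of_forall hmono hm t ho
  exact ((hnx (s m)).2.2 t hg hmt).mono (hR (m + 1)).1

end Pool.Agent.K4H1.PAC
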