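import Pool.Agent.K4H1.PAC.Embed

/-!
# Ideals of polynomial rings over a subfield of `Ω`
-/

set_option autoImplicit false

namespace Pool.Agent.K4H1.PAC

open MvPolynomial

variable {K Ω : Type} [Field K] [Field Ω] [Algebra K Ω] {σ : Type}

/-- Apply a `K`-linear map `l : Ω → K` to the coefficients. -/
noncomputable def Lam (l : Ω →ₗ[K] K) (f : MvPolynomial σ Ω) : MvPolynomial σ K :=
  ∑ m ∈ f.support, monomial m (l (coeff m f))

theorem coeff_Lam (l : Ω →ₗ[K] K) (f : MvPolynomial σ Ω) (m : σ →₀ ℕ) :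
    coeff m (Lam l f) = l (coeff m f) := by
  classical
  unfold Lam
  rw [coeff_sum]
  simp only [coeff_monomial]
  rw [Finset.sum_ite_eq' f.support m (fun m => l (coeff m f))]
  split_ifs with h
  · rfl
  · rw [notMem_support_iff.1 h, map_zero]

theorem Lam_add (l : Ω →ₗ[K] K) (f g : MvPolynomial σ Ω) : Lam l (f + g) = Lam l f + Lam l g := by
  ext m
  simp only [coeff_Lam, coeff_add, map_add]

theorem Lam_sub (l : Ω →ₗ[K] K) (f g : MvPolynomial σ Ω) : Lam l (f - g) = Lam l f - Lam l g := by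
  ext m
  simp only [coeff_Lam, coeff_sub, map_sub]

theorem Lam_zero (l : Ω →ₗ[K] K) : Lam l (0 : MvPolynomial σ Ω) = 0 := by
  ext m
  simp only [coeff_Lam, coeff_zero, map_zero]

theorem Lam_mul_map (l : Ω →ₗ[K] K) (f : MvPolynomial σ Ω) (p : MvPolynomial σ K) :
    Lam l (f * map (algebraMap K Ω) p) = Lam l f * p := by
  classical
  ext m
  rw [coeff_Lam, coeff_mul, coeff_mul, map_sum]
  refine Finset.sum_congr rfl fun x _ => ?_
  rw [coeff_map, coeff_Lam, mul_comm, ← Algebra.smul_def, map_smul, smul_eq_mul, mul_comm]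

theorem Lam_C_mul_map (l : Ω →ₗ[K] K) (θ : Ω) (p : MvPolynomial σ K) :
    Lam l (C θ * map (algebraMap K Ω) p) = C (l θ) * p := by
  rw [Lam_mul_map]
  congr 1
  ext m
  classical
  rw [coeff_Lam, coeff_C, coeff_C]
  split_ifs <;> simp

/-- The extension of the ideal `I` of `K[x]` to `Ω[x]`. -/
noncomputable def ext (Ω : Type) [Field Ω] [Algebra K Ω] (I : Ideal (MvPolynomial σ K)) :
    Ideal (MvPolynomial σ Ω) :=
  I.map (map (algebraMap K Ω))

theorem Lam_mem (l : Ω →ₗ[K] K) (I : Ideal (MvPolynomial σ K)) {f : MvPolynomial σ Ω}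
    (hf : f ∈ ext Ω I) : Lam l f ∈ I := by
  have key : ∀ g : MvPolynomial σ Ω, Lam l (g * f) ∈ I := by
    unfold ext Ideal.map at hf
    refine Submodule.span_induction (p := fun f _ => ∀ g : MvPolynomial σ Ω, Lam l (g * f) ∈ I)
      ?_ ?_ ?_ ?_ hf
    · rintro _ ⟨p, hp, rfl⟩ g
      rw [Lam_mul_map]
      exact I.mul_mem_left _ hp
    · intro g
      rw [mul_zero, Lam_zero]
      exact I.zero_mem
    · intro x y _ _ hx hy g
      rw [mul_add, Lam_add]
      exact I.add_mem (hx g) (hy g)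
    · intro a x _ hx g
      rw [smul_eq_mul, ← mul_assoc]
      exact hx _
  simpa using key 1

/-- a linear functional with prescribed values at `1` and at `θ ∉ K` -/
theorem exists_functional {θ : Ω} (hθ : θ ∉ Set.range (algebraMap K Ω)) :
    ∃ l : Ω →ₗ[K] K, l 1 = 0 ∧ l θ = 1 := by
  have h : θ ∉ Submodule.span K ({1} : Set Ω) := by
    intro h
    rw [Submodule.mem_span_singleton] at h
    obtain ⟨a, ha⟩ := h
    exact hθ ⟨a, by rw [Algebra.algebraMap_eq_smul_one]; exact ha⟩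
  obtain ⟨l, hl, h1⟩ := Submodule.exists_le_ker_of_notMem h
  refine ⟨(l θ)⁻¹ • l, ?_, ?_⟩
  · rw [LinearMap.smul_apply, LinearMap.mem_ker.1 (h1 (Submodule.mem_span_singleton_self 1)),
      smul_zero]
  · rw [LinearMap.smul_apply, smul_eq_mul, inv_mul_cancel₀ hl]

theorem exists_functional_one (K Ω : Type) [Field K] [Field Ω] [Algebra K Ω] :
    ∃ l : Ω →ₗ[K] K, l 1 = 1 := by
  have h : (1 : Ω) ∉ (⊥ : Submodule K Ω) := by
    rw [Submodule.mem_bot]
    exact one_ne_zero
  obtain ⟨l, hl, -⟩ := Submodule.exists_le_ker_of_notMem h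
  refine ⟨(l 1)⁻¹ • l, ?_⟩
  rw [LinearMap.smul_apply, smul_eq_mul, inv_mul_cancel₀ hl]

theorem mem_of_map_mem (I : Ideal (MvPolynomial σ K)) {f : MvPolynomial σ K}
    (hf : map (algebraMap K Ω) f ∈ ext Ω I) : f ∈ I := by
  obtain ⟨l, hl⟩ := exists_functional_one K Ω
  have h := Lam_mem l I hf
  have h2 : Lam l (map (algebraMap K Ω) f) = f := by
    have := Lam_C_mul_map (σ := σ) l 1 f
    rwa [C_1, one_mul, hl, C_1, one_mul] at this
  rwa [h2] at h

theorem map_mem_ext (I : Ideal (MvPolynomial σ K)) {f : MvPolynomial σ K} (hf : f ∈ I) :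
    map (algebraMap K Ω) f ∈ ext Ω I := Ideal.mem_map_of_mem _ hf

theorem isPrime_of_ext (I : Ideal (MvPolynomial σ K)) (h : (ext Ω I).IsPrime) : I.IsPrime := by
  have e : I = (ext Ω I).comap (map (algebraMap K Ω)) :=
    le_antisymm (fun f hf => map_mem_ext I hf) (fun f hf => mem_of_map_mem I hf)
  rw [e]
  exact Ideal.IsPrime.comap _

end Pool.Agent.K4H1.PAC
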