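import Mathlib

/-!
# Countable extensions of a countable field embed into an uncountable algebraically closed field
-/

set_option autoImplicit false

namespace Pool.Agent.K4H1.PAC

open Cardinal

/-- A countable extension field of `K` embeds over `K` into every uncountable algebraically closed
extension field of `K`. -/
theorem nonempty_algHom (K F Ω : Type) [Field K] [Field F] [Field Ω] [Algebra K F] [Algebra K Ω]
    [IsAlgClosed Ω] [Countable F] [Uncountable Ω] : Nonempty (F →ₐ[K] Ω) := by
  have hKc : Countable K := (algebraMap K F).injective.countable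
  obtain ⟨ι, x, hx⟩ := exists_isTranscendenceBasis' K F
  obtain ⟨κ, y, hy⟩ := exists_isTranscendenceBasis' K Ω
  have hcard : #Ω = #κ := IsAlgClosed.cardinal_eq_cardinal_transcendence_basis_of_aleph0_lt' y hy
    (mk_le_aleph0_iff.2 hKc) (by
      rw [← not_le, mk_le_aleph0_iff, not_countable_iff]
      infer_instance)
  have hι : Countable ι := hx.1.injective.countable
  have hle : #ι ≤ #κ := by
    rw [← hcard]
    refine (mk_le_aleph0_iff.2 hι).trans ?_
    exact aleph0_le_mk Ω
  obtain ⟨e⟩ := hle
  have hz : AlgebraicIndependent K (y ∘ e) := hy.1.comp e e.injective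
  let L := IntermediateField.adjoin K (Set.range x)
  have : Algebra.IsAlgebraic L F := hx.isAlgebraic_field
  let f : L →ₐ[K] Ω := (IntermediateField.val _).comp
    ((hz.aevalEquivField.toAlgHom).comp hx.1.aevalEquivField.symm.toAlgHom)
  obtain ⟨g, -⟩ := IsAlgClosed.surjective_domRestrict_of_isAlgebraic (E := F) f
  exact ⟨g⟩

end Pool.Agent.K4H1.PAC
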