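import Mathlib

/-!
# Fields over which the absolute Galois group is not topologically finitely generated
-/

set_option autoImplicit false

namespace Pool.Agent.K4H1.PAC

open scoped IntermediateField

variable (K : Type) [Field K]

theorem fixed_of_closure {L : Type} [Field L] [Algebra K L] [IsGalois K L]
    (S : Set (L ≃ₐ[K] L)) (hS : (Subgroup.closure S).topologicalClosure = ⊤) (D : L)
    (hD : ∀ σ ∈ S, σ D = D) : ∃ k : K, algebraMap K L k = D := by
  have h1 : Subgroup.closure S ≤ (K⟮D⟯ : IntermediateField K L).fixingSubgroup := by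
    rw [Subgroup.closure_le]
    intro σ hσ
    rw [SetLike.mem_coe, IntermediateField.mem_fixingSubgroup_iff]
    intro x hx
    have h2 : (K⟮D⟯ : IntermediateField K L) ≤ IntermediateField.fixedField (Subgroup.zpowers σ) := by
      rw [IntermediateField.adjoin_simple_le_iff, IntermediateField.mem_fixedField_iff]
      rintro _ ⟨n, rfl⟩
      have h3 : σ ∈ MulAction.stabilizer (L ≃ₐ[K] L) D := hD σ hσ
      exact Subgroup.zpow_mem _ h3 n
    have h4 := h2 hx
    rw [IntermediateField.mem_fixedField_iff] at h4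
    exact h4 σ (Subgroup.mem_zpowers σ)
  have h2 : (Subgroup.closure S).topologicalClosure ≤
      (K⟮D⟯ : IntermediateField K L).fixingSubgroup :=
    Subgroup.topologicalClosure_minimal _ h1 (InfiniteGalois.fixingSubgroup_isClosed _)
  rw [hS] at h2
  have h3 : D ∈ (⊥ : IntermediateField K L) := by
    rw [InfiniteGalois.mem_bot_iff_fixed]
    intro σ
    have h4 := h2 (Subgroup.mem_top σ)
    rw [IntermediateField.mem_fixingSubgroup_iff] at h4
    exact h4 D (IntermediateField.mem_adjoin_simple_self K D)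
  exact IntermediateField.mem_bot.1 h3

theorem not_fg [CharZero K] (hK : ∀ m : ℕ, 1 < m → Squarefree m → ¬ IsSquare (m : K))
    (S : Set (SeparableClosure K ≃ₐ[K] SeparableClosure K)) (hS : S.Finite) :
    (Subgroup.closure S).topologicalClosure ≠ ⊤ := by
  classical
  intro htop
  have hS' : Finite S := hS
  set L := SeparableClosure K with hL
  have hs : ∀ n : ℕ, ∃ z : L, z ^ 2 = (n : L) := by
    intro n
    have : CharZero L := charZero_of_injective_algebraMap (algebraMap K L).injective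
    have : NeZero ((2 : ℕ) : L) := ⟨by norm_num⟩
    exact IsSepClosed.exists_pow_nat_eq (n : L) 2
  choose s hs using hs
  let p : ℕ → ℕ := Nat.nth Nat.Prime
  have hp : ∀ i, (p i).Prime := fun i => Nat.prime_nth_prime i
  have hpinj : Function.Injective p := Nat.nth_injective Nat.infinite_setOfPred_prime
  let d : Finset ℕ → L := fun T => ∏ i ∈ T, s (p i)
  have hd2 : ∀ T, d T ^ 2 = ((∏ i ∈ T, p i : ℕ) : L) := by
    intro T
    rw [← Finset.prod_pow, Nat.cast_prod]
    exact Finset.prod_congr rfl fun i _ => hs (p i)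
  have hsign : ∀ (σ : L ≃ₐ[K] L) (T : Finset ℕ), σ (d T) = d T ∨ σ (d T) = - d T := by
    intro σ T
    apply sq_eq_sq_iff_eq_or_eq_neg.1
    rw [← map_pow, hd2, map_natCast]
  obtain ⟨r, hr⟩ : ∃ r : ℕ, Nat.card S = r := ⟨_, rfl⟩
  have hfin : Fintype S := Fintype.ofFinite S
  let pat : (Finset.range (r + 1)).powerset → S → Bool :=
    fun T σ => decide (σ.1 (d T.1) = d T.1)
  obtain ⟨T₁, T₂, hne, hpat⟩ := Fintype.exists_ne_map_eq_of_card_lt pat (by
    rw [Fintype.card_fun, Fintype.card_bool, Fintype.card_coe, Finset.card_powerset,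
      Finset.card_range, ← Nat.card_eq_fintype_card (α := S), hr]
    exact Nat.pow_lt_pow_right (by norm_num) (Nat.lt_succ_self r))
  have hD : ∀ σ ∈ S, σ (d T₁ * d T₂) = d T₁ * d T₂ := by
    intro σ hσ
    have h1 := congrFun hpat ⟨σ, hσ⟩
    simp only [pat, decide_eq_decide] at h1
    rw [map_mul]
    rcases hsign σ T₁ with h2 | h2 <;> rcases hsign σ T₂ with h3 | h3
    · rw [h2, h3]
    · rw [h2, h1.1 h2]
    · rw [h3, h1.2 h3]
    · rw [h2, h3, neg_mul_neg]
  obtain ⟨k, hk⟩ := fixed_of_closure K S htop _ hD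
  -- the squarefree number
  let m : ℕ := ∏ i ∈ symmDiff T₁.1 T₂.1, p i
  let c : ℕ := ∏ i ∈ T₁.1 ∩ T₂.1, p i
  have hprod : (∏ i ∈ T₁.1, p i) * (∏ i ∈ T₂.1, p i) = m * c ^ 2 := by
    have e1 : ∏ i ∈ T₁.1, p i = (∏ i ∈ T₁.1 \ T₂.1, p i) * c := by
      have := Finset.prod_sdiff (f := p) (Finset.inter_subset_left (s₁ := T₁.1) (s₂ := T₂.1))
      rw [← this, Finset.sdiff_inter_self_left]
    have e2 : ∏ i ∈ T₂.1, p i = (∏ i ∈ T₂.1 \ T₁.1, p i) * c := by
      have := Finset.prod_sdiff (f := p) (Finset.inter_subset_right (s₁ := T₁.1) (s₂ := T₂.1))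
      rw [← this, Finset.sdiff_inter_self_right]
    have e3 : m = (∏ i ∈ T₁.1 \ T₂.1, p i) * (∏ i ∈ T₂.1 \ T₁.1, p i) := by
      change ∏ i ∈ symmDiff T₁.1 T₂.1, p i = _
      rw [symmDiff_def, Finset.sup_eq_union, Finset.prod_union]
      exact disjoint_sdiff_sdiff
    rw [e1, e2, e3]
    ring
  have hc : c ≠ 0 := Finset.prod_ne_zero_iff.2 fun i _ => (hp i).ne_zero
  have hmsq : Squarefree m := by
    have : m = ∏ q ∈ (symmDiff T₁.1 T₂.1).image p, q := by
      rw [Finset.prod_image]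
      intro i _ j _ h
      exact hpinj h
    rw [this]
    apply Finset.squarefree_prod_of_pairwise_isCoprime
    · intro a ha b hb hab
      obtain ⟨i, -, rfl⟩ := Finset.mem_image.1 (Finset.mem_coe.1 ha)
      obtain ⟨j, -, rfl⟩ := Finset.mem_image.1 (Finset.mem_coe.1 hb)
      exact Nat.coprime_iff_isRelPrime.1 ((Nat.coprime_primes (hp i) (hp j)).2 hab)
    · intro a ha
      obtain ⟨i, -, rfl⟩ := Finset.mem_image.1 ha
      exact (hp i).prime.squarefree
  have hm1 : 1 < m := by
    have hne' : (symmDiff T₁.1 T₂.1).Nonempty := by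
      rw [Finset.nonempty_iff_ne_empty, ← Finset.bot_eq_empty, Ne, symmDiff_eq_bot]
      exact fun h => hne (Subtype.ext h)
    obtain ⟨i, hi⟩ := hne'
    have h1 : p i ∣ m := Finset.dvd_prod_of_mem p hi
    have h2 : m ≠ 0 := hmsq.ne_zero
    exact lt_of_lt_of_le (hp i).one_lt (Nat.le_of_dvd (Nat.pos_of_ne_zero h2) h1)
  apply hK m hm1 hmsq
  have hk2 : k ^ 2 = (m : K) * (c : K) ^ 2 := by
    apply (algebraMap K L).injective
    rw [map_pow, hk, mul_pow, hd2, hd2, ← Nat.cast_mul, hprod]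
    simp
  have hc' : (c : K) ≠ 0 := by exact_mod_cast hc
  refine ⟨k / c, ?_⟩
  rw [div_mul_div_comm, ← pow_two, ← pow_two, hk2, mul_div_cancel_right₀]
  exact pow_ne_zero 2 hc'

end Pool.Agent.K4H1.PAC
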