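import Pool.Agent.K4H1.PAC.Descent

/-!
# Generic points
-/

set_option autoImplicit false

namespace Pool.Agent.K4H1.PAC

open MvPolynomial

section relative

variable {K Ω : Type} [Field K] [Field Ω] [Algebra K Ω] [IsAlgClosed Ω] {σ : Type}
  (I : Ideal (MvPolynomial σ K))
  {A F D : Type} [CommRing A] [IsDomain A] [Field F] [Algebra K A] [Algebra A F] [Algebra K F]
  [IsScalarTower K A F] [IsFractionRing A F] [CommRing D] [Algebra Ω D]
  (π : MvPolynomial σ K →ₐ[K] A) (hπ : Function.Surjective π) (hπ0 : ∀ f, π f = 0 ↔ f ∈ I)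
  (τ : MvPolynomial σ Ω →ₐ[Ω] D) (hτ : Function.Surjective τ) (hτ0 : ∀ f, τ f = 0 ↔ f ∈ ext Ω I)

include hπ hπ0 hτ0 in
/-- If `I Ω[x]` is prime then `K` is algebraically closed in the field of fractions of `K[x] / I`. -/
theorem mem_of_isIntegral (E : Type) [Field E] [Algebra D E] [Algebra Ω E]
    [IsScalarTower Ω D E] [IsFractionRing D E] (z : F) (hint : IsIntegral K z) :
    ∃ k : K, z = algebraMap K F k := by
  let ρ : MvPolynomial σ K →+* D := (τ : MvPolynomial σ Ω →+* D).comp (map (algebraMap K Ω))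
  have hρ0 : ∀ f, ρ f = 0 ↔ π f = 0 := by
    intro f
    rw [hπ0]
    change τ (map (algebraMap K Ω) f) = 0 ↔ f ∈ I
    rw [hτ0]
    exact ⟨mem_of_map_mem I, map_mem_ext I⟩
  have hker : RingHom.ker (π : MvPolynomial σ K →+* A) ≤ RingHom.ker ρ := by
    intro f hf
    rw [RingHom.mem_ker] at hf ⊢
    exact (hρ0 f).2 hf
  let ρ' : A →+* D := RingHom.liftOfSurjective (π : MvPolynomial σ K →+* A) hπ ⟨ρ, hker⟩
  have hρ'π : ∀ f, ρ' (π f) = ρ f := fun f =>
    RingHom.liftOfRightInverse_comp_apply _ _ _ ⟨ρ, hker⟩ f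
  have hρ' : Function.Injective ρ' := by
    rw [injective_iff_map_eq_zero]
    intro x hx
    obtain ⟨f, rfl⟩ := hπ x
    rwa [hρ'π, hρ0] at hx
  have hρ2 : Function.Injective ((algebraMap D E).comp ρ') :=
    (IsFractionRing.injective D E).comp hρ'
  let χ : F →+* E := IsFractionRing.lift hρ2
  have hχ : ∀ f : MvPolynomial σ K, χ (algebraMap A F (π f)) =
      algebraMap D E (τ (map (algebraMap K Ω) f)) := by
    intro f
    change IsFractionRing.lift hρ2 (algebraMap A F (π f)) = _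
    rw [IsFractionRing.lift_algebraMap, RingHom.comp_apply, hρ'π]
    rfl
  have hχK : χ.comp (algebraMap K F) = (algebraMap Ω E).comp (algebraMap K Ω) := by
    ext k
    have h1 : algebraMap K F k = algebraMap A F (π (C k)) := by
      have : π (C k) = algebraMap K A k := π.commutes k
      rw [this, ← IsScalarTower.algebraMap_apply]
    have h2 : τ (C (algebraMap K Ω k)) = algebraMap Ω D (algebraMap K Ω k) := τ.commutes _
    rw [RingHom.comp_apply, h1, hχ, map_C, h2, ← IsScalarTower.algebraMap_apply,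
      RingHom.comp_apply]
  have hintE : IsIntegral Ω (χ z) := by
    obtain ⟨p, hp, hp2⟩ := hint
    refine ⟨p.map (algebraMap K Ω), hp.map _, ?_⟩
    rw [Polynomial.eval₂_map, ← hχK, ← Polynomial.hom_eval₂, hp2, map_zero]
  have hdeg := IsAlgClosed.degree_eq_one_of_irreducible Ω (minpoly.irreducible hintE)
  obtain ⟨r, hr⟩ := minpoly.mem_range_of_degree_eq_one Ω (χ z) hdeg
  obtain ⟨g, h, hh, hz⟩ := IsFractionRing.div_surjective (A := A) z
  obtain ⟨G, rfl⟩ := hπ g
  obtain ⟨H, rfl⟩ := hπ h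
  have hH : π H ≠ 0 := nonZeroDivisors.ne_zero hh
  have hH' : algebraMap A F (π H) ≠ 0 := by
    intro h0
    apply hH
    apply IsFractionRing.injective A F
    rw [h0, map_zero]
  have hz' : z * algebraMap A F (π H) = algebraMap A F (π G) := by
    rw [← hz, div_mul_cancel₀ _ hH']
  have hmem : map (algebraMap K Ω) G - C r * map (algebraMap K Ω) H ∈ ext Ω I := by
    rw [← hτ0]
    apply IsFractionRing.injective D E
    have h1 := congrArg χ hz'
    rw [map_mul, hχ, hχ, ← hr] at h1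
    have h2 : τ (C r) = algebraMap Ω D r := τ.commutes _
    rw [map_zero, map_sub, map_sub, ← h1, map_mul, map_mul, h2, ← IsScalarTower.algebraMap_apply,
      sub_self]
  have hrK : r ∈ Set.range (algebraMap K Ω) := by
    by_contra hrK
    obtain ⟨l, hl1, hlr⟩ := exists_functional hrK
    have h2 := Lam_mem l I hmem
    have h3 : Lam l (map (algebraMap K Ω) G) = 0 := by
      have := Lam_C_mul_map (σ := σ) l 1 G
      rwa [C_1, one_mul, hl1, C_0, zero_mul] at this
    rw [Lam_sub, h3, Lam_C_mul_map, hlr, C_1, one_mul, zero_sub] at h2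
    exact hH ((hπ0 H).2 (neg_mem_iff.1 h2))
  obtain ⟨k, rfl⟩ := hrK
  have hmem' : G - C k * H ∈ I := by
    apply mem_of_map_mem (Ω := Ω) I
    rw [map_sub, map_mul, map_C]
    exact hmem
  refine ⟨k, ?_⟩
  have h4 := (hπ0 _).2 hmem'
  have h5 : π (C k) = algebraMap K A k := π.commutes k
  have h6 : (z - algebraMap K F k) * algebraMap A F (π H) = 0 := by
    rw [sub_mul, hz', IsScalarTower.algebraMap_apply K A F, ← h5, ← map_mul, ← map_mul, ← map_sub,
      ← map_sub, h4, map_zero]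
  rcases mul_eq_zero.1 h6 with h7 | h7
  · exact sub_eq_zero.1 h7
  · exact absurd h7 hH'

end relative

variable {Ω : Type} [Field Ω]

/-- `K` is relatively algebraically closed in `L`. -/
def Rac (K L : Subfield Ω) : Prop := K ≤ L ∧ ∀ x ∈ L, IsAlgebraic K x → x ∈ K

theorem Rac.refl (K : Subfield Ω) : Rac K K := ⟨le_rfl, fun _ hx _ => hx⟩

theorem isAlgebraic_mono {K L : Subfield Ω} (h : K ≤ L) {x : Ω} (hx : IsAlgebraic K x) :
    IsAlgebraic L x := by
  obtain ⟨p, hp, hx⟩ := hx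
  refine ⟨p.map (Subfield.inclusion h), ?_, ?_⟩
  · rwa [Polynomial.map_ne_zero_iff (Subfield.inclusion h).injective]
  · rw [Polynomial.aeval_def, Polynomial.eval₂_map]
    exact hx

theorem Rac.trans {K L M : Subfield Ω} (h : Rac K L) (h' : Rac L M) : Rac K M :=
  ⟨h.1.trans h'.1, fun x hx ha => h.2 x (h'.2 x hx (isAlgebraic_mono h.1 ha)) ha⟩

theorem countable_fractionRing (A : Type) [CommRing A] [Countable A] :
    Countable (FractionRing A) := by
  refine Function.Surjective.countable (f := fun p : A × nonZeroDivisors A =>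
    IsLocalization.mk' (FractionRing A) p.1 p.2) ?_
  intro z
  obtain ⟨a, b, h⟩ := IsLocalization.exists_mk'_eq (nonZeroDivisors A) z
  exact ⟨(a, b), h⟩

theorem countable_mvPolynomial (A : Type) [CommRing A] [Countable A] (n : ℕ) :
    Countable (MvPolynomial (Fin n) A) := by
  rw [← Cardinal.mk_le_aleph0_iff]
  refine MvPolynomial.cardinalMk_le_max.trans ?_
  simp [Cardinal.mk_le_aleph0]

theorem generic [IsAlgClosed Ω] [Uncountable Ω] (K : Subfield Ω) [Countable K] (n : ℕ)
    (I : Ideal (MvPolynomial (Fin n) K)) (hI : (ext Ω I).IsPrime) :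
    ∃ L : Subfield Ω, Countable L ∧ Rac K L ∧ ∃ a : Fin n → Ω, (∀ i, a i ∈ L) ∧
      ∀ f ∈ I, aeval a f = 0 := by
  have hIp : I.IsPrime := isPrime_of_ext I hI
  have c1 := countable_mvPolynomial K n
  have c2 : Countable (MvPolynomial (Fin n) K ⧸ I) := Quotient.countable
  have c3 := countable_fractionRing (MvPolynomial (Fin n) K ⧸ I)
  obtain ⟨φ⟩ := nonempty_algHom K (FractionRing (MvPolynomial (Fin n) K ⧸ I)) Ω
  let π := Ideal.Quotient.mkₐ K I
  have hπ0 : ∀ f, π f = 0 ↔ f ∈ I := fun f => Ideal.Quotient.eq_zero_iff_mem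
  let ψ : MvPolynomial (Fin n) K →ₐ[K] FractionRing (MvPolynomial (Fin n) K ⧸ I) :=
    (IsScalarTower.toAlgHom K (MvPolynomial (Fin n) K ⧸ I)
      (FractionRing (MvPolynomial (Fin n) K ⧸ I))).comp π
  let a : Fin n → Ω := fun i => φ (ψ (X i))
  have haev : ∀ f, aeval a f = φ (ψ f) := by
    intro f
    have : (aeval a : MvPolynomial (Fin n) K →ₐ[K] Ω) = φ.comp ψ := by
      ext i
      simp [a]
    rw [this]
    rfl
  refine ⟨φ.fieldRange.toSubfield, ?_, ⟨?_, ?_⟩, a, fun i => ⟨_, rfl⟩, ?_⟩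
  · exact Function.Surjective.countable (f := fun z =>
      (⟨φ z, ⟨z, rfl⟩⟩ : φ.fieldRange.toSubfield)) (by
        rintro ⟨_, ⟨z, rfl⟩⟩
        exact ⟨z, rfl⟩)
  · intro k hk
    exact ⟨algebraMap K _ ⟨k, hk⟩, φ.commutes ⟨k, hk⟩⟩
  · rintro _ ⟨z, rfl⟩ halg
    have halg' : IsAlgebraic K z := by
      obtain ⟨p, hp, hp2⟩ := halg
      refine ⟨p, hp, ?_⟩
      have hp3 : Polynomial.aeval (φ z) p = 0 := hp2
      rw [Polynomial.aeval_algHom_apply] at hp3
      exact (map_eq_zero φ).1 hp3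
    obtain ⟨k, hk⟩ := mem_of_isIntegral (Ω := Ω) I (A := MvPolynomial (Fin n) K ⧸ I)
      (D := MvPolynomial (Fin n) Ω ⧸ ext Ω I)
      π Ideal.Quotient.mk_surjective hπ0 (Ideal.Quotient.mkₐ Ω (ext Ω I))
      (fun f => Ideal.Quotient.eq_zero_iff_mem)
      (FractionRing (MvPolynomial (Fin n) Ω ⧸ ext Ω I)) z halg'.isIntegral
    have : φ z = algebraMap K Ω k := by rw [hk, φ.commutes]
    change φ z ∈ K
    rw [this]
    exact k.2
  · intro f hf
    have : ψ f = 0 := by
      rw [AlgHom.comp_apply, (hπ0 f).2 hf, map_zero]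
    rw [haev, this, map_zero]

end Pool.Agent.K4H1.PAC
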