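import Pool.Agent.K4H1.PAC.Alg

/-!
# Points of schemes
-/

set_option autoImplicit false

namespace Pool.Agent.K4H1.PAC

open AlgebraicGeometry CategoryTheory Limits TensorProduct

variable {Ω : Type} [Field Ω]

theorem exists_section (K : Subfield Ω) (hK : ∀ t, Good t → Over K t → Pt K t)
    (X : Scheme.{0}) (f : X ⟶ Spec (.of K)) [GeometricallyIntegral f] [LocallyOfFiniteType f] :
    ∃ s : Spec (.of K) ⟶ X, s ≫ f = 𝟙 _ := by
  have hX : IsIntegral X := GeometricallyIntegral.isIntegral_of_subsingleton f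
  obtain ⟨x⟩ := (inferInstance : Nonempty X)
  obtain ⟨R, g, hg, y, -⟩ := Scheme.exists_Spec_apply_eq x
  have hRne : Nonempty (Spec R) := ⟨y⟩
  -- the ring homomorphism
  obtain ⟨φ, hφ⟩ : ∃ φ : CommRingCat.of K ⟶ R, Spec.map φ = g ≫ f :=
    ⟨Spec.preimage (g ≫ f), Spec.map_preimage _⟩
  algebraize [φ.hom]
  have hft : Algebra.FiniteType K R := by
    have h1 : LocallyOfFiniteType (Spec.map φ) := by rw [hφ]; infer_instance
    exact (HasRingHomProperty.Spec_iff (P := @LocallyOfFiniteType)).1 h1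
  -- the base change to `Ω`
  let ι : CommRingCat.of K ⟶ CommRingCat.of Ω := CommRingCat.ofHom (algebraMap K Ω)
  have hi : IsIntegral (pullback f (Spec.map ι)) :=
    pullback_of_geometrically GeometricallyIntegral.geometrically_isIntegral Ω (Spec.map ι)
  have hi2 : IsIntegral (pullback (g ≫ f) (Spec.map ι)) :=
    isIntegral_of_isOpenImmersion
      (pullback.map (g ≫ f) (Spec.map ι) f (Spec.map ι) g (𝟙 _) (𝟙 _) (by simp) (by simp))
  have hi3 : IsIntegral (pullback (Spec.map ι) (Spec.map φ)) := by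
    rw [hφ]
    exact IsIntegral.of_isIso (pullbackSymmetry (g ≫ f) (Spec.map ι)).hom
  have hi4 : IsIntegral (Spec (CommRingCat.of (Ω ⊗[K] R))) :=
    IsIntegral.of_isIso (pullbackSpecIso K Ω R).hom
  have hdom : IsDomain (Ω ⊗[K] R) := (affine_isIntegral_iff _).1 hi4
  obtain ⟨ψ⟩ := exists_algHom K hK R hft hdom
  refine ⟨Spec.map (CommRingCat.ofHom (ψ : R →+* K)) ≫ g, ?_⟩
  rw [Category.assoc, ← hφ, ← Spec.map_comp, ← Spec.map_id]
  congr 1
  ext k
  exact congrArg Subtype.val (ψ.commutes k)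

end Pool.Agent.K4H1.PAC
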